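import Pool.Agent.W536.XI.Stm

/-!
# Task CR: crude bound for the summands

(helper235, for project XI of helper536.)
-/

open Complex MeasureTheory Filter Topology

namespace Pool.Agent.W235.XI

open W536.XI

lemma key (C C1 : ℝ) : ∃ y1 K : ℝ, 3 ≤ y1 ∧ ∀ y : ℝ, y1 ≤ y → ∀ l : ℂ, GamAt C y l →
    ∀ s : ℂ, ‖s - I * y‖ ≤ C1 * Real.log y → (∀ v : ℝ, ‖hh (2 + I * v)‖ ≤ 1 + |v|) →
      ∀ v : ℝ, ‖hh (2 + I * v)‖ * Real.exp (((2 - s.re) ^ 2 - (v - s.im) ^ 2) / 4) ≤
        ‖hh (I * y)‖ * Real.exp (K * Real.log y ^ 2) * Real.exp (-(v - s.im) ^ 2 / 8) := by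
  have hlo := (Real.isLittleO_log_id_atTop).bound
    (show (0 : ℝ) < 1 / (32 * (|C1| + 1)) by positivity)
  obtain ⟨y0, hy0⟩ := eventually_atTop.1 hlo
  set K : ℝ := 2 * (1 / 2 + 2 * |C|) ^ 2 + (1 / 2 + 2 * |C|) * (2 + |C1|) + (2 + |C1|) ^ 2 / 4 with hK
  refine ⟨max y0 12288, K, le_trans (by norm_num) (le_max_right _ _), ?_⟩
  intro y hy l hG s hs hv v
  have hy0' : y0 ≤ y := le_trans (le_max_left _ _) hy
  have hy1 : (12288 : ℝ) ≤ y := le_trans (le_max_right _ _) hy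
  have hypos : 0 < y := by linarith
  set lam := Real.log y with hlam
  have hlam1 : 1 ≤ lam := by
    rw [hlam, Real.le_log_iff_exp_le hypos]
    have := Real.exp_one_lt_d9
    linarith
  have hC0 : 0 ≤ C := le_trans (norm_nonneg _) hG.1
  have hC10 : 0 ≤ C1 := by
    by_contra h
    push Not at h
    have h1 : C1 * lam < 0 := mul_neg_of_neg_of_pos h (by linarith)
    have h2 := norm_nonneg (s - I * y)
    linarith
  have hlog : C1 * lam ≤ y / 32 := by
    have h1 := hy0 y hy0'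
    rw [id, Real.norm_of_nonneg (by linarith : (0 : ℝ) ≤ Real.log y),
      Real.norm_of_nonneg hypos.le] at h1
    have h2 : C1 * lam ≤ (|C1| + 1) * (1 / (32 * (|C1| + 1)) * y) := by
      apply mul_le_mul (by rw [abs_of_nonneg hC10]; linarith) h1 (by linarith) (by positivity)
    have h3 : (|C1| + 1) * (1 / (32 * (|C1| + 1)) * y) = y / 32 := by
      field_simp
    linarith
  have hre : |s.re| ≤ C1 * lam := by
    have h := abs_re_le_norm (s - I * y)
    simp at h
    exact h.trans hs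
  have him : |s.im - y| ≤ C1 * lam := by
    have h := abs_im_le_norm (s - I * y)
    simp at h
    exact h.trans hs
  set x := v - s.im with hx
  have hA0 : (2 - s.re) ^ 2 ≤ (2 + C1 * lam) ^ 2 := by
    have := abs_le.1 hre
    apply sq_le_sq'
    · linarith [this.1, this.2]
    · linarith [this.1, this.2]
  have hvy : |v - y| ≤ |x| + C1 * lam := by
    have h : v - y = x + (s.im - y) := by rw [hx]; ring
    rw [h]
    exact (abs_add_le _ _).trans (by linarith)
  set d : ℂ := 2 + I * v - I * y with hd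
  have hdn : ‖d‖ ≤ 2 + |v - y| := by
    have h : d = 2 + I * ((v - y : ℝ) : ℂ) := by rw [hd]; push_cast; ring
    rw [h]
    refine (norm_add_le _ _).trans ?_
    rw [norm_mul, norm_I, one_mul, norm_real]
    simp
  -- the constants
  have hB : ∀ B : ℝ, B ≤ K * lam ^ 2 → ∀ z : ℝ, z ≤ B - x ^ 2 / 8 →
      ‖hh (I * y)‖ * Real.exp z ≤
        ‖hh (I * y)‖ * Real.exp (K * lam ^ 2) * Real.exp (-x ^ 2 / 8) := by
    intro B hB z hz
    rw [mul_assoc, ← Real.exp_add]
    apply mul_le_mul_of_nonneg_left _ (norm_nonneg _)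
    apply Real.exp_le_exp.2
    linarith
  by_cases hcase : ‖d‖ ≤ y / 8
  · obtain ⟨e, he, hhe⟩ := hG.2.2 d hcase
    have h1 : hh (2 + I * v) = hh (I * y) * cexp (l * d + e) := by
      rw [← hhe, hd]; congr 1; ring
    have hl : ‖l‖ ≤ lam / 2 + C := by
      have h2 : l = (l - (lam / 2 : ℝ)) + ((lam / 2 : ℝ) : ℂ) := by ring
      calc ‖l‖ = ‖(l - (lam / 2 : ℝ)) + ((lam / 2 : ℝ) : ℂ)‖ := by rw [← h2]
        _ ≤ ‖l - (lam / 2 : ℝ)‖ + ‖((lam / 2 : ℝ) : ℂ)‖ := norm_add_le _ _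
        _ ≤ C + lam / 2 := by
          apply add_le_add hG.1
          rw [norm_real, Real.norm_of_nonneg (by linarith)]
        _ = lam / 2 + C := by ring
    have he2 : ‖e‖ ≤ C * ‖d‖ := by
      refine he.trans ?_
      rw [div_le_iff₀ hypos]
      have h3 : ‖d‖ ^ 2 ≤ ‖d‖ * y := by
        rw [sq]; exact mul_le_mul_of_nonneg_left (by linarith) (norm_nonneg _)
      calc C * ‖d‖ ^ 2 ≤ C * (‖d‖ * y) := mul_le_mul_of_nonneg_left h3 hC0
        _ = C * ‖d‖ * y := by ring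
    have hexp : ‖cexp (l * d + e)‖ ≤ Real.exp ((lam / 2 + 2 * C) * ‖d‖) := by
      rw [norm_exp]
      apply Real.exp_le_exp.2
      calc (l * d + e).re ≤ ‖l * d + e‖ := re_le_norm _
        _ ≤ ‖l * d‖ + ‖e‖ := norm_add_le _ _
        _ ≤ (lam / 2 + C) * ‖d‖ + C * ‖d‖ := by
          apply add_le_add _ he2
          rw [norm_mul]
          exact mul_le_mul_of_nonneg_right hl (norm_nonneg _)
        _ = (lam / 2 + 2 * C) * ‖d‖ := by ring
    rw [h1, norm_mul, mul_assoc]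
    have h5 : ‖cexp (l * d + e)‖ * Real.exp (((2 - s.re) ^ 2 - x ^ 2) / 4) ≤
        Real.exp ((lam / 2 + 2 * C) * ‖d‖ + ((2 - s.re) ^ 2 - x ^ 2) / 4) := by
      rw [Real.exp_add]
      exact mul_le_mul_of_nonneg_right hexp (Real.exp_pos _).le
    refine (mul_le_mul_of_nonneg_left h5 (norm_nonneg _)).trans ?_
    set A := lam / 2 + 2 * C with hA
    have hApos : 0 ≤ A := by rw [hA]; linarith
    refine hB (2 * A ^ 2 + A * (2 + C1 * lam) + (2 + C1 * lam) ^ 2 / 4) ?_ _ ?_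
    · have hAle : A ≤ (1 / 2 + 2 * |C|) * lam := by
        rw [hA, abs_of_nonneg hC0]
        nlinarith
      have h2le : 2 + C1 * lam ≤ (2 + |C1|) * lam := by
        rw [abs_of_nonneg hC10]; nlinarith
      have h20 : 0 ≤ 2 + C1 * lam := by positivity
      have e1 : A ^ 2 ≤ ((1 / 2 + 2 * |C|) * lam) ^ 2 := pow_le_pow_left₀ hApos hAle 2
      have e2 : A * (2 + C1 * lam) ≤ ((1 / 2 + 2 * |C|) * lam) * ((2 + |C1|) * lam) :=
        mul_le_mul hAle h2le h20 (hApos.trans hAle)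
      have e3 : (2 + C1 * lam) ^ 2 ≤ ((2 + |C1|) * lam) ^ 2 := pow_le_pow_left₀ h20 h2le 2
      rw [hK]
      nlinarith
    · have hdx : ‖d‖ ≤ 2 + C1 * lam + |x| := by linarith
      have h6 : A * ‖d‖ ≤ A * (2 + C1 * lam) + A * |x| := by
        rw [← mul_add]
        exact mul_le_mul_of_nonneg_left hdx hApos
      have h7 : A * |x| ≤ 2 * A ^ 2 + x ^ 2 / 8 := by
        have := sq_nonneg (4 * A - |x|)
        have h8 : |x| ^ 2 = x ^ 2 := sq_abs x
        nlinarith
      linarith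
  · push Not at hcase
    have hxbig : y / 16 ≤ |x| := by linarith
    have h1 : ‖hh (2 + I * v)‖ ≤ Real.exp (|x| + (y + C1 * lam)) := by
      refine (hv v).trans ?_
      have h2 : |v| ≤ |x| + (y + C1 * lam) := by
        have h : v = x + (s.im - y) + y := by rw [hx]; ring
        have h3 := abs_add_le (x + (s.im - y)) y
        have h4 := abs_add_le x (s.im - y)
        rw [← h, abs_of_pos hypos] at h3
        linarith
      have h3 := Real.add_one_le_exp (|x| + (y + C1 * lam))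
      linarith
    have h2 : (1 : ℝ) ≤ ‖hh (I * y)‖ * Real.exp y := by
      have := mul_le_mul_of_nonneg_right hG.2.1 (Real.exp_pos y).le
      rwa [← Real.exp_add, neg_add_cancel, Real.exp_zero] at this
    have h3 : ‖hh (2 + I * v)‖ * Real.exp (((2 - s.re) ^ 2 - x ^ 2) / 4) ≤
        ‖hh (I * y)‖ * Real.exp (y + (|x| + (y + C1 * lam)) + ((2 - s.re) ^ 2 - x ^ 2) / 4) := by
      rw [Real.exp_add, Real.exp_add y, ← mul_assoc, ← mul_assoc]
      apply mul_le_mul_of_nonneg_right _ (Real.exp_pos _).le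
      calc ‖hh (2 + I * v)‖ ≤ Real.exp (|x| + (y + C1 * lam)) := h1
        _ = 1 * Real.exp (|x| + (y + C1 * lam)) := by rw [one_mul]
        _ ≤ ‖hh (I * y)‖ * Real.exp y * Real.exp (|x| + (y + C1 * lam)) :=
          mul_le_mul_of_nonneg_right h2 (Real.exp_pos _).le
    refine h3.trans (hB ((2 + C1 * lam) ^ 2 / 4) ?_ _ ?_)
    · have h2le : 2 + C1 * lam ≤ (2 + |C1|) * lam := by
        rw [abs_of_nonneg hC10]; nlinarith
      have h20 : 0 ≤ 2 + C1 * lam := by positivity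
      have e3 : (2 + C1 * lam) ^ 2 ≤ ((2 + |C1|) * lam) ^ 2 := pow_le_pow_left₀ h20 h2le 2
      rw [hK]
      have e4 : 0 ≤ (2 * (1 / 2 + 2 * |C|) ^ 2 + (1 / 2 + 2 * |C|) * (2 + |C1|)) * lam ^ 2 := by
        positivity
      nlinarith
    · have h8 : |x| ^ 2 = x ^ 2 := sq_abs x
      have h9 : 16 * |x| ≤ x ^ 2 := by
        rw [← h8]; nlinarith
      have h10 : y ^ 2 / 256 ≤ x ^ 2 := by
        rw [← h8]
        have := pow_le_pow_left₀ (by positivity) hxbig 2
        nlinarith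
      nlinarith

/-- **Task CR** -/
theorem cr (hg : S_GREP) : S_CR := by
  intro C C1
  obtain ⟨y1, K, hy13, hkey⟩ := key C C1
  refine ⟨y1, K + 1, ?_⟩
  intro y hy l hG s hs n
  have hk := hkey y hy l hG s hs hg.2.1
  set Ln := L n with hLn
  have hrep := (hg.1 (s + 2 * Ln)).2
  set H := ‖hh (I * y)‖ with hH
  have hlam1 : 1 ≤ Real.log y := by
    rw [Real.le_log_iff_exp_le (by linarith)]
    have := Real.exp_one_lt_d9
    linarith
  -- the bound function
  set c0 : ℝ := H * Real.exp (K * Real.log y ^ 2) * Real.exp (-(Ln * (2 - s.re)) + Ln ^ 2) with hc0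
  have hint : Integrable (fun v : ℝ => c0 * Real.exp (-(v - s.im) ^ 2 / 8)) := by
    apply Integrable.const_mul
    have h1 : Integrable (fun v : ℝ => Real.exp (-(1 / 8 : ℝ) * v ^ 2)) :=
      integrable_exp_neg_mul_sq (by norm_num)
    have h2 := h1.comp_sub_right s.im
    refine h2.congr (Eventually.of_forall fun v => ?_)
    simp only
    congr 1
    ring
  have hval : ∫ v : ℝ, c0 * Real.exp (-(v - s.im) ^ 2 / 8) = c0 * Real.sqrt (Real.pi * 8) := by
    rw [integral_const_mul]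
    congr 1
    have h1 : (fun v : ℝ => Real.exp (-(v - s.im) ^ 2 / 8)) =
        fun v : ℝ => (fun u : ℝ => Real.exp (-(1 / 8 : ℝ) * u ^ 2)) (v - s.im) := by
      funext v
      simp only
      congr 1
      ring
    rw [h1, integral_sub_right_eq_self (fun u : ℝ => Real.exp (-(1 / 8 : ℝ) * u ^ 2)),
      integral_gaussian]
    congr 1
    ring
  have hbd : ‖∫ v : ℝ, hh (2 + I * v) * cexp ((2 + I * v - (s + 2 * Ln)) ^ 2 / 4)‖ ≤
      c0 * Real.sqrt (Real.pi * 8) := by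
    rw [← hval]
    refine norm_integral_le_of_norm_le hint (Eventually.of_forall fun v => ?_)
    rw [norm_mul, norm_exp]
    have hre : ((2 + I * v - (s + 2 * Ln)) ^ 2 / 4 : ℂ).re =
        ((2 - s.re) ^ 2 - (v - s.im) ^ 2) / 4 + (-(Ln * (2 - s.re)) + Ln ^ 2) := by
      have h4 : ((2 + I * v - (s + 2 * Ln)) ^ 2 / 4 : ℂ) =
          ((1 / 4 : ℝ) : ℂ) * (2 + I * v - (s + 2 * Ln)) ^ 2 := by push_cast; ring
      rw [h4, re_ofReal_mul, sq, mul_re]
      simp
      ring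
    rw [hre, Real.exp_add, ← mul_assoc]
    have h5 := mul_le_mul_of_nonneg_right (hk v)
      (Real.exp_pos (-(Ln * (2 - s.re)) + Ln ^ 2)).le
    refine h5.trans (le_of_eq ?_)
    rw [hc0]
    ring
  have hT : Tn n s = cexp (-(s * Ln) - (Ln : ℂ) ^ 2) * ((1 / (2 * Real.sqrt Real.pi) : ℝ) *
      ∫ v : ℝ, hh (2 + I * v) * cexp ((2 + I * v - (s + 2 * Ln)) ^ 2 / 4)) := by
    rw [Tn, ← hLn, hrep, ofReal_div, ofReal_one]
  have hnT : ‖Tn n s‖ ≤ Real.exp (-(s.re * Ln) - Ln ^ 2) * (1 / (2 * Real.sqrt Real.pi) *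
      (c0 * Real.sqrt (Real.pi * 8))) := by
    rw [hT, norm_mul, norm_mul, norm_exp, norm_real]
    have hr : (-(s * Ln) - (Ln : ℂ) ^ 2).re = -(s.re * Ln) - Ln ^ 2 := by
      have : (-(s * Ln) - (Ln : ℂ) ^ 2) = -(s * Ln) - ((Ln ^ 2 : ℝ) : ℂ) := by push_cast; ring
      rw [this, sub_re, neg_re, re_mul_ofReal, ofReal_re]
    rw [hr, Real.norm_of_nonneg (by positivity)]
    exact mul_le_mul_of_nonneg_left (mul_le_mul_of_nonneg_left hbd (by positivity))
      (Real.exp_pos _).le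
  refine hnT.trans ?_
  have hsq : 1 / (2 * Real.sqrt Real.pi) * Real.sqrt (Real.pi * 8) ≤ Real.exp (Real.log y ^ 2) := by
    have h1 : Real.sqrt (Real.pi * 8) = Real.sqrt Real.pi * Real.sqrt 8 :=
      Real.sqrt_mul Real.pi_pos.le 8
    have h2 : Real.sqrt 8 ≤ 4 := by
      rw [Real.sqrt_le_left (by norm_num)]; norm_num
    have h3 : 0 < Real.sqrt Real.pi := Real.sqrt_pos.2 Real.pi_pos
    rw [h1]
    have h4 : 1 / (2 * Real.sqrt Real.pi) * (Real.sqrt Real.pi * Real.sqrt 8) = Real.sqrt 8 / 2 := by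
      field_simp
    rw [h4]
    have h5 := Real.add_one_le_exp (Real.log y ^ 2)
    have h6 : 1 ≤ Real.log y ^ 2 := one_le_pow₀ hlam1
    linarith
  have hLexp : Real.exp (-(2 * Ln)) = 1 / ((n : ℝ) + 1) ^ 2 := by
    rw [hLn, L, Real.exp_neg, two_mul, Real.exp_add, Real.exp_log (by positivity)]
    rw [one_div, sq]
  have hfin : Real.exp (-(s.re * Ln) - Ln ^ 2) * (1 / (2 * Real.sqrt Real.pi) *
      (c0 * Real.sqrt (Real.pi * 8))) =
      H * (Real.exp (K * Real.log y ^ 2) * (1 / (2 * Real.sqrt Real.pi) * Real.sqrt (Real.pi * 8))) *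
        (Real.exp (-(s.re * Ln) - Ln ^ 2) * Real.exp (-(Ln * (2 - s.re)) + Ln ^ 2)) := by
    rw [hc0]; ring
  rw [hfin, ← Real.exp_add, show -(s.re * Ln) - Ln ^ 2 + (-(Ln * (2 - s.re)) + Ln ^ 2) =
    -(2 * Ln) by ring, hLexp]
  have hfin2 : H * (Real.exp (K * Real.log y ^ 2) *
      (1 / (2 * Real.sqrt Real.pi) * Real.sqrt (Real.pi * 8))) ≤
      H * Real.exp ((K + 1) * Real.log y ^ 2) := by
    apply mul_le_mul_of_nonneg_left _ (norm_nonneg _)
    rw [add_mul, Real.exp_add, one_mul]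
    exact mul_le_mul_of_nonneg_left hsq (Real.exp_pos _).le
  calc _ ≤ H * Real.exp ((K + 1) * Real.log y ^ 2) * (1 / ((n : ℝ) + 1) ^ 2) :=
        mul_le_mul_of_nonneg_right hfin2 (by positivity)
    _ = _ := by ring

end Pool.Agent.W235.XI
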